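import Pool.Agent.helper41.HFE.Spec

set_option autoImplicit false

open Polynomial Module Pool.Agent.HFN

namespace Pool.Agent.HFE

noncomputable section

theorem GE2_quad (p q r : ℂ) (h : ¬ (p = 0 ∧ q = 0 ∧ r = 0)) : {t : ℂ | p * t * t + q * t + r = 0}.Finite := by
  classical
  have hne : (C p * X ^ 2 + C q * X + C r : ℂ[X]) ≠ 0 := by
    intro h0
    apply h
    refine ⟨?_, ?_, ?_⟩
    · have := congrArg (fun f : ℂ[X] => f.coeff 2) h0
      simpa [coeff_X, coeff_C] using this
    · have := congrArg (fun f : ℂ[X] => f.coeff 1) h0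
      simpa [coeff_X, coeff_C] using this
    · have := congrArg (fun f : ℂ[X] => f.coeff 0) h0
      simpa [coeff_X, coeff_C] using this
  apply ((C p * X ^ 2 + C q * X + C r : ℂ[X]).roots.toFinset.finite_toSet).subset
  intro t ht
  rw [Set.mem_ofPred_eq] at ht
  rw [Finset.mem_coe, Multiset.mem_toFinset, mem_roots hne, IsRoot.def]
  simp only [eval_add, eval_mul, eval_C, eval_pow, eval_X]
  linear_combination ht

theorem GE2 : GE2_stmt := by
  intro a b c d had hdg
  refine ⟨?_, ?_, ?_⟩
  · intro w
    have h := GE2_quad 0 (a * w + c) (b * w + d) (by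
      rintro ⟨_, h1, h2⟩
      apply had
      linear_combination a * h2 - b * h1)
    apply h.subset
    intro t ht
    rw [Set.mem_ofPred_eq] at ht ⊢
    linear_combination ht
  · intro t
    have h := GE2_quad 0 (a * t + b) (c * t + d) (by
      rintro ⟨_, h1, h2⟩
      apply had
      linear_combination a * h2 - c * h1)
    apply h.subset
    intro w hw
    rw [Set.mem_ofPred_eq] at hw ⊢
    linear_combination hw
  · have h := GE2_quad a (b + c) d (by
      rintro ⟨h1, h2, h3⟩
      exact hdg ⟨h1, h3, h2⟩)
    apply h.subset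
    intro t ht
    rw [Set.mem_ofPred_eq] at ht ⊢
    linear_combination ht

end

end Pool.Agent.HFE
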