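import Pool.Agent.helper41.HFE.Spec

set_option autoImplicit false

open Polynomial Module Pool.Agent.HFN

namespace Pool.Agent.HFE

noncomputable section

theorem UPG_mono {J K : Ideal AA} (h : J ≤ K) (i j : ℕ) : hd J i j ≤ hd K i j := by
  unfold hd
  have h' : (J.restrictScalars ℂ : Submodule ℂ AA) ≤ K.restrictScalars ℂ := fun f hf => h hf
  exact Submodule.finrank_mono (inf_le_inf_left _ h')

theorem UPG_mul {J : Ideal AA} {f : AA} {s t u v : ℕ}
    (h : ∀ g ∈ J, g ∈ V s t → ∃ k ∈ V u v, g = f * k) : hd J s t ≤ (u + 1) * (v + 1) := by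
  unfold hd
  have hle : (V s t ⊓ J.restrictScalars ℂ : Submodule ℂ AA) ≤ (V u v).map (LinearMap.mulLeft ℂ f) := by
    intro g hg
    rw [Submodule.mem_inf] at hg
    obtain ⟨k, hk, hgk⟩ := h g hg.2 hg.1
    exact Submodule.mem_map.mpr ⟨k, hk, hgk.symm⟩
  have h1 : finrank ℂ ((V u v).map (LinearMap.mulLeft ℂ f) : Submodule ℂ AA) ≤ (u + 1) * (v + 1) := by
    rw [← finrank_V]
    exact Submodule.finrank_map_le _ _
  have : FiniteDimensional ℂ ((V u v).map (LinearMap.mulLeft ℂ f) : Submodule ℂ AA) := inferInstance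
  exact le_trans (Submodule.finrank_mono hle) h1

theorem UPG_arith (i j a b D L H H0 H1 : ℕ) (ha : 1 ≤ a) (hb : 1 ≤ b) (h2a : 2 * a ≤ i + 1) (h2b : 2 * b ≤ j + 1)
    (h1 : D + (i + 1) * (j + 1) = H + L) (h2 : H ≤ H0) (h3 : H0 ≤ H1 + (i - (i + 1 - a)) * j)
    (h4 : H1 ≤ (i + 1 - a - a + 1) * (j - b + 1)) :
    D + ((i + 1) * (j + 1) - (i + 1 - a) * (j + 1 - b)) ≤ L + (a - 1) * (b - 1) := by
  obtain ⟨a', rfl⟩ : ∃ a', a = a' + 1 := ⟨a - 1, by omega⟩
  obtain ⟨b', rfl⟩ : ∃ b', b = b' + 1 := ⟨b - 1, by omega⟩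
  obtain ⟨i', rfl⟩ : ∃ i', i = 2 * a' + 1 + i' := ⟨i - (2 * a' + 1), by omega⟩
  obtain ⟨j', rfl⟩ : ∃ j', j = 2 * b' + 1 + j' := ⟨j - (2 * b' + 1), by omega⟩
  have e1 : 2 * a' + 1 + i' + 1 - (a' + 1) = a' + 1 + i' := by omega
  have e2 : 2 * b' + 1 + j' + 1 - (b' + 1) = b' + 1 + j' := by omega
  have e3 : 2 * a' + 1 + i' - (a' + 1 + i') = a' := by omega
  have e4 : a' + 1 + i' - (a' + 1) + 1 = i' + 1 := by omega
  have e5 : 2 * b' + 1 + j' - (b' + 1) + 1 = b' + 1 + j' := by omega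
  rw [e1, e3] at h3
  rw [e1, e4, e5] at h4
  rw [e1, e2]
  have e6 : a' + 1 - 1 = a' := by omega
  have e7 : b' + 1 - 1 = b' := by omega
  rw [e6, e7]
  have e8 : (a' + 1 + i') * (b' + 1 + j') ≤ (2 * a' + 1 + i' + 1) * (2 * b' + 1 + j' + 1) := Nat.mul_le_mul (by omega) (by omega)
  have e9 : (i' + 1) * (b' + 1 + j') + a' * (2 * b' + 1 + j') = (a' + 1 + i') * (b' + 1 + j') + a' * b' := by ring
  generalize (2 * a' + 1 + i' + 1) * (2 * b' + 1 + j' + 1) = P at *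
  generalize (a' + 1 + i') * (b' + 1 + j') = Q at *
  generalize (i' + 1) * (b' + 1 + j') = R at *
  generalize a' * (2 * b' + 1 + j') = S at *
  generalize a' * b' = T at *
  omega

theorem UPG (hDUA : DUA_stmt) (hDFQ : DFQ_stmt) (hLAF : LAF_stmt) (hDIV : DIV_stmt) (hRNK : RNK_stmt) (hGRO : GRO_stmt) : UPG_stmt := by
  intro Z i j φ f hφ hFu hM hall ha hb
  have hp : 2 * ((i + 1) / 2) ≤ i + 1 := Nat.mul_div_le _ _
  have hq : 2 * ((j + 1) / 2) ≤ j + 1 := Nat.mul_div_le _ _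
  have hpi : (i + 1) / 2 ≤ i := by omega
  have hqj : (j + 1) / 2 ≤ j := by omega
  obtain ⟨hda, hdb⟩ := mem_V.mp hM.deg
  have hFc : Fc (An φ) := (hRNK Z φ hFu.1).1
  -- the defect
  have h1 : df Z i j + (i + 1) * (j + 1) = hd (JJ Z two ⊔ Ideal.span {f}) i j + La Z f := by
    rw [← (hLAF Z f).2, ← hDFQ _ (hLAF Z f).1 i j, hDUA.1 Z i j f hall]
    rfl
  have hK : JJ Z two ⊔ Ideal.span {f} ≤ An φ := by
    apply sup_le (le_An hFu.1)
    rw [Ideal.span_singleton_le_iff_mem]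
    exact hM.mem
  have h2 : hd (JJ Z two ⊔ Ideal.span {f}) i j ≤ hd (An φ) i j := UPG_mono hK i j
  have h3 : ∀ n : ℕ, i + 1 - dX f + n ≤ i → hd (An φ) (i + 1 - dX f + n) j ≤ hd (An φ) (i + 1 - dX f) j + n * j := by
    intro n
    induction n with
    | zero => intro _; simp
    | succ n ih =>
      intro hn
      have h4 := hGRO Z i j ((i + 1) / 2) ((j + 1) / 2) φ f hφ hFu hM hpi hqj hb (i + 1 - dX f + n) (by omega) (by omega)
      have h5 := ih (by omega)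
      have h6 : (n + 1) * j = n * j + j := by ring
      rw [h6]
      have h7 : i + 1 - dX f + (n + 1) = i + 1 - dX f + n + 1 := by omega
      rw [h7]
      omega
  have h4 : hd (An φ) i j ≤ hd (An φ) (i + 1 - dX f) j + (i - (i + 1 - dX f)) * j := by
    have h5 := h3 (i - (i + 1 - dX f)) (by omega)
    have h6 : i + 1 - dX f + (i - (i + 1 - dX f)) = i := by omega
    rw [h6] at h5
    exact h5
  have h5 : hd (An φ) (i + 1 - dX f) j ≤ (i + 1 - dX f - dX f + 1) * (j - dY f + 1) := by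
    apply UPG_mul (f := f)
    intro g hg hgV
    by_contra hcon
    have hnd : ¬ f ∣ g := by
      rintro ⟨k, rfl⟩
      exact hcon ⟨k, mem_V_of_mul hM.ne hgV, rfl⟩
    have h6 := (hDIV φ i j ((i + 1) / 2) ((j + 1) / 2) f hFc hφ hFu.2 hM hpi hqj g (i + 1 - dX f) j hg hgV (by omega) (by omega) hnd).1
    omega
  exact UPG_arith i j (dX f) (dY f) _ _ _ _ _ ha hb (by omega) (by omega) h1 h2 h4 h5

end

end Pool.Agent.HFE
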